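import Pool.Agent.TH198.AT.Full
import Pool.Agent.TH198.AT.Iff
import Pool.Agent.TH479.AT.STEIN
import Pool.Agent.TH891.AT.HEAT
import Pool.Agent.TH811.AT.HEATX
import Pool.Agent.TH637.AT.SEMI
import Pool.Agent.TH494.AT.POINS
import Pool.Agent.TH521.AT.VD
import Pool.Agent.TH521.AT.W
import Pool.Agent.TH582.AT.CASE2
import Pool.Agent.TH47.AT.CLAIMS
import Pool.Agent.TH283.AT.CORES
import Pool.Agent.TH509.AT.F0
import Pool.Agent.TH424.AT.KD
import Pool.Agent.TH429.AT.G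
import Pool.Agent.TH148.AT.MAX
import Pool.Agent.TH862.AT.LEIB
import Pool.Agent.TH355.AT.PH1
import Pool.Agent.TH325.AT.PH2
import Pool.Agent.TH330.AT.HEATE
import Pool.Agent.TH883.AT.CH
import Pool.Agent.TH106.AT.VAL
import Pool.Agent.TH147.AT.LAM
import Pool.Agent.TH574.AT.JEN
import Pool.Agent.TH562.AT.LIM
import Pool.Agent.TH543.AT.LESS
import Pool.Agent.TH347.AT.LG
import Pool.Agent.TH89.AT.ZERO
import Pool.Agent.TH638.AT.ONEPT
import Pool.Agent.TH633.AT.CONV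
import Pool.Agent.TH952.AT.GREAT
import Pool.Agent.TH367.AT.UNIQ
import Pool.Agent.TH883.AT.OVER
import Pool.Agent.TH87.AT.PAR2
import Pool.Agent.TH530.AT.CT
import Pool.Agent.TH283.AT.EXDX
import Pool.Agent.TH283.AT.EXPT
import Pool.Agent.TH316.AT.ExTI
import Pool.Agent.TH316.AT.ExAsm
import Pool.Agent.TH560.AT.FP
import Pool.Agent.TH367.AT.MX

/-!
# The de Almeida–Thouless line of the Sherrington–Kirkpatrick model

For every `β > 0` and every external field `h` the Parisi measure is concentrated on one point if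
and only if the de Almeida–Thouless condition holds.
-/

set_option autoImplicit false

open MeasureTheory ProbabilityTheory Set

namespace Pool.Agent.Results.MP_aa848e_pr.AlmeidaThouless

open Pool.TH198.AT

/-- Let `β > 0` and `h ∈ ℝ`.
* The Parisi equation has, for every distribution function `ζ` on `[0,1]`, exactly one solution
  (in the class of functions with bounded continuous `f_x`, `f_xx`), so the Parisi functional is a
  function of `ζ`.
* The equation `q = E tanh² (β z √(2q) + h)` has a largest solution `q` in `[0,1]`, and the Parisi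
  functional has a one-point minimiser if and only if `β² E cosh⁻⁴ (β z √(2q) + h) ≤ 1/2`.
* In that case the one-point measure at `q` is the unique minimiser. -/
theorem result (β h : ℝ) (hβ : 0 < β) :
    (∀ ζ : ℝ → ℝ, IsCdf ζ → ∃ f : ℝ → ℝ → ℝ, IsParisi β ζ f ∧
      ∀ g : ℝ → ℝ → ℝ, IsParisi β ζ g → ∀ t ∈ Icc (0 : ℝ) 1, ∀ x, g t x = f t x) ∧
    ∃ q : ℝ, IsGreatest {p : ℝ | p ∈ Icc (0 : ℝ) 1 ∧
        p = ∫ z, Real.tanh (β * z * √(2 * p) + h) ^ 2 ∂(gaussianReal 0 1)} q ∧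
      ((∃ p ∈ Icc (0 : ℝ) 1, IsParisiMeasure β h (one p)) ↔
        β ^ 2 * ∫ z, (Real.cosh (β * z * √(2 * q) + h))⁻¹ ^ 4 ∂(gaussianReal 0 1) ≤ 1 / 2) ∧
      (β ^ 2 * ∫ z, (Real.cosh (β * z * √(2 * q) + h))⁻¹ ^ 4 ∂(gaussianReal 0 1) ≤ 1 / 2 →
        IsParisiMeasure β h (one q) ∧
          ∀ ζ : ℝ → ℝ, IsParisiMeasure β h ζ → ∀ t ∈ Icc (0 : ℝ) 1, ζ t = one q t) := by
  have hST : St_STEIN := Pool.TH479.AT.t_STEIN
  have hH : St_HEAT := t_HEAT hST
  have hX : St_HEATX := Pool.TH811.AT.t_HEATX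
  have hSE : St_SEMI := Pool.TH637.AT.t_SEMI
  have hPO : St_POINS := Pool.TH494.AT.t_POINS
  have hVD : St_VD := Pool.TH521.AT.t_VD hH
  have hW : St_W := Pool.TH521.AT.t_W
  have hCL : St_CLAIMS := Pool.TH47.AT.t_CLAIMS hST hW
  have hC2 : St_CASE2 := t_CASE2
  have hCO : St_CORES := Pool.TH283.AT.t_CORES hPO hSE hVD hCL hC2
  have hF0 : St_F0 := Pool.TH509.AT.t_F0 hH hX
  have hKD : St_KD := Pool.Agent.TH424.AT.t_KD hH hX
  have hG : St_G := t_G hKD
  have hM : St_MAX := Pool.TH148.AT.t_MAX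
  have hL : St_LEIB := Pool.TH862.AT.t_LEIB
  have hP1 : St_PH1 := Pool.TH355.AT.t_PH1 hM hL hKD
  have hP2 : St_PH2 := Pool.TH325.AT.t_PH2 hX hH hL hM
  have hFU : St_FULL := t_FULL hP1 hP2 hG hCO hF0
  -- the converse direction
  have hHE : St_HEATE := Pool.TH330.AT.t_HEATE
  have hCH : St_CH := Pool.TH883.AT.t_CH hHE
  have hPA : St_PAR2 := Pool.TH87.AT.t_PAR2 hCH
  have hVA : St_VAL := t_VAL
  have hOV : St_OVER := Pool.TH883.AT.t_OVER hH
  have hLA : St_LAM := Pool.TH147.AT.t_LAM hHE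
  have hLE : St_LESS := Pool.TH543.AT.t_LESS hVA hOV hLA t_JEN t_LIM
  have hON : St_ONEPT := Pool.TH638.AT.t_ONEPT hVA
  have hLG : St_LG := Pool.TH347.AT.t_LG
  have hZE : St_ZERO := Pool.Agent.TH89.AT.t_ZERO
  have hCV : St_CONV := Pool.TH633.AT.t_CONV hF0 hON hLE hPA hLG hZE
  have hUN : St_UNIQ := Pool.TH367.AT.t_UNIQ
  have hGR : St_GREAT := Pool.TH952.AT.t_GREAT
  have hIF : St_IFF := t_IFF hFU hF0 hCV hUN hGR
  have hEX : St_EX := Pool.TH316.AT.t_EX Pool.TH530.AT.t_CT (Pool.TH283.AT.t_DX hST hX) Pool.TH316.AT.TI.t_TI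
    (Pool.TH283.AT.t_PT hH hX) (Pool.TH560.AT.t_FP Pool.TH530.AT.t_CT (Pool.TH283.AT.t_PT hH hX))
    Pool.TH367.AT.t_MX
  refine ⟨fun ζ hζ => ?_, (hIF β h hβ).2⟩
  obtain ⟨f, hf⟩ := hEX β ζ hβ hζ
  exact ⟨f, hf, fun g hg => (hIF β h hβ).1 ζ hζ g f hg hf⟩

end Pool.Agent.Results.MP_aa848e_pr.AlmeidaThouless
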